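import Pool.Agent.ZPK.StmtsR2

set_option autoImplicit false

/-!
Helper72, squad ZPK (MP_6e1a06_nt), row LWA: the lower end.
-/

namespace Pool.Agent.ZPK.H72.LW

open Pool.Agent.ZPT Pool.Agent.ZP3

theorem norm_nat {p : ℕ} {K : Type} [NormedField K] [CharZero K] (hE : Ext p K) (n : ℕ) :
    ‖(n : K)‖ = ((padicNorm p (n : ℚ) : ℚ) : ℝ) := by
  have h := hE (n : ℚ)
  have h2 : (((n : ℚ) : ℚ) : K) = (n : K) := by push_cast; rfl
  rw [h2] at h
  exact h

theorem norm_nat_le {p : ℕ} (hp : p.Prime) {K : Type} [NormedField K] [CharZero K]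
    (hE : Ext p K) (n : ℕ) : ‖(n : K)‖ ≤ 1 := by
  have := Fact.mk hp
  rw [norm_nat hE]
  have h := padicNorm.of_nat (p := p) n
  exact_mod_cast h

theorem norm_nat_one {p : ℕ} (hp : p.Prime) {K : Type} [NormedField K] [CharZero K]
    (hE : Ext p K) {n : ℕ} (hn : ¬ p ∣ n) : ‖(n : K)‖ = 1 := by
  have := Fact.mk hp
  rw [norm_nat hE, (padicNorm.nat_eq_one_iff n).2 hn]
  norm_num

theorem norm_p {p : ℕ} (hp : p.Prime) {K : Type} [NormedField K] [CharZero K] (hE : Ext p K) :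
    ‖(p : K)‖ = (p : ℝ)⁻¹ := by
  have := Fact.mk hp
  rw [norm_nat hE, padicNorm.padicNorm_p_of_prime]
  push_cast
  rfl

end Pool.Agent.ZPK.H72.LW

namespace Pool.Agent.ZPK.H72

open Pool.Agent.ZPT Pool.Agent.ZP3 LW

/-- Row LWA. -/
theorem lwa (hT : ZP3.THBStmt) (_hB : LgbStmt) (hN : LgnStmt) (hC : CriStmt) (hG : GpsStmt)
    (hR : ArlStmt) : LwaStmt := by
  intro p hp h11 K _ _ _ _ _ hE Log hLog A B e e' y Θ Ψ ρ hA hAB hco hee hep hBe hy2 hy1 hyA hρ1
    hρ2 hΘ hΨ hΘn hL1 hL2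
  obtain ⟨_, ht0, ht1, _, _⟩ := hT p hp (by omega)
  have hp0 : (0 : ℝ) < (p : ℝ) := by exact_mod_cast hp.pos
  have hp1 : (1 : ℝ) < (p : ℝ) := by exact_mod_cast hp.one_lt
  have hi0 : (0 : ℝ) < (p : ℝ)⁻¹ := inv_pos.2 hp0
  have hi1 : (p : ℝ)⁻¹ < 1 := inv_lt_one_of_one_lt₀ hp1
  have hy0 : 0 < ‖y‖ := lt_of_lt_of_le (pow_pos ht0 2) hy2
  have hρ0 : 0 ≤ ρ := hi0.le.trans hρ1
  have h32 : th p ^ 3 ≤ th p ^ 2 := pow_le_pow_of_le_one ht0.le ht1.le (by norm_num)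
  have hρt : ρ < th p ^ 2 := lt_of_lt_of_le hρ2 h32
  have hρlt1 : ρ < 1 := lt_of_lt_of_le hρt (pow_le_one₀ ht0.le ht1.le)
  have hAn : ‖(A : K)‖ ≤ 1 := norm_nat_le hp hE A
  have hBn : ‖(B : K)‖ ≤ 1 := norm_nat_le hp hE B
  have hρA : ρ * ‖(A : K)‖ ≤ ρ := mul_le_of_le_one_right hρ0 hAn
  have hBΘ : ‖(B : K) * Θ‖ ≤ ρ := by
    rw [norm_mul]
    exact (mul_le_of_le_one_left (norm_nonneg _) hBn).trans hΘ
  have hBΨ : ‖(B : K) * Ψ‖ ≤ ρ := by
    rw [norm_mul]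
    exact (mul_le_of_le_one_left (norm_nonneg _) hBn).trans hΨ
  have hAL1 : ‖(A : K) * Log (1 + y)‖ ≤ ρ := by
    have h1 : (A : K) * Log (1 + y) = ((A : K) * Log (1 + y) - B * Θ) + B * Θ := by ring
    rw [h1]
    exact (IsUltrametricDist.norm_add_le_max _ _).trans (max_le (hL1.trans hρA) hBΘ)
  have hAL2 : ‖(A : K) * Log y‖ ≤ ρ := by
    have h1 : (A : K) * Log y = ((A : K) * Log y + B * Ψ) + -(B * Ψ) := by ring
    rw [h1]
    refine (IsUltrametricDist.norm_add_le_max _ _).trans (max_le (hL2.trans hρA) ?_)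
    rw [norm_neg]
    exact hBΨ
  have hinj : ∀ m n : ℕ, ((p : ℝ)⁻¹) ^ m = ((p : ℝ)⁻¹) ^ n → m = n := fun m n h =>
    pow_right_injective₀ hi0 hi1.ne h
  have hinj' : ∀ m n : ℕ, (p : ℝ) ^ m = (p : ℝ) ^ n → m = n := fun m n h =>
    pow_right_injective₀ hp0 hp1.ne' h
  by_cases hcr : ∃ h : ℕ, ‖y‖ ^ (p ^ h * (p - 1)) = (p : ℝ)⁻¹
  · -- critical radius
    exfalso
    obtain ⟨h, hh⟩ := hcr
    have h1 : (B - A) * (p ^ h * (p - 1)) = A := by
      apply hinj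
      have h2 : (‖y‖ ^ A) ^ (p ^ h * (p - 1)) = (‖y‖ ^ (p ^ h * (p - 1))) ^ A := by
        rw [← pow_mul, ← pow_mul, mul_comm]
      rw [hyA, hh, ← pow_mul] at h2
      exact h2
    have h2 : B - A = 1 := by
      have h3 : (B - A) ∣ A := ⟨_, h1.symm⟩
      have h4 : Nat.Coprime A (B - A) := by
        rw [Nat.coprime_sub_self_right hAB.le]
        exact hco
      exact Nat.Coprime.eq_one_of_dvd h4.symm h3
    rw [h2, one_mul] at h1
    have hp1n : ‖((p - 1 : ℕ) : K)‖ = 1 := norm_nat_one hp hE fun h3 => by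
      have := Nat.le_of_dvd (by omega) h3
      omega
    have hAc : (A : K) = (p : K) ^ h * ((p - 1 : ℕ) : K) := by
      rw [← h1]
      push_cast
      ring
    have h3 : ‖(p : K) ^ h * Log (1 + y)‖ ≤ ρ := by
      have h4 : ‖(A : K) * Log (1 + y)‖ = ‖(p : K) ^ h * Log (1 + y)‖ := by
        rw [hAc, norm_mul, norm_mul, norm_mul, hp1n, mul_one]
      rw [← h4]
      exact hAL1
    obtain ⟨ξ, d, hξ, hyd, hd1, hd2⟩ := hC p hp (by omega) K hE Log hLog y h ρ hy0 hy1 hh hρ0 hρ2 h3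
    have h5 := hG p hp (by omega) K hE Log hLog h ξ d 0 0 0 0 hξ hd1 (lt_of_le_of_lt hd2 hρ2)
      (by rw [norm_zero]; exact zero_le_one) (by rw [norm_zero]; exact zero_le_one)
      (Or.inl ⟨Or.inl rfl, Or.inl rfl⟩)
    have h6 : ξ * (1 + d) - 1 = y := by
      rw [← hyd]
      ring
    rw [h6, Int.cast_zero, zero_mul, add_zero, add_zero, h1] at h5
    exact absurd (h5.trans hAL2) (not_le.2 hρt)
  · -- not critical
    have hcr' : ∀ h : ℕ, ‖y‖ ^ (p ^ h * (p - 1)) ≠ (p : ℝ)⁻¹ := fun h hh => hcr ⟨h, hh⟩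
    obtain ⟨j, _, _, hj3, hj4⟩ := hN p hp (by omega) K hE Log hLog y hy0 hy1 hcr'
    by_cases hpA : p ∣ A
    · -- the main case
      have hpB : ¬ p ∣ B := fun h => by
        have h1 := Nat.dvd_gcd hpA h
        rw [hco] at h1
        exact hp.one_lt.ne' (Nat.dvd_one.1 h1)
      have hBn1 : ‖(B : K)‖ = 1 := norm_nat_one hp hE hpB
      obtain ⟨α, m, hm, hAm⟩ := Nat.exists_eq_pow_mul_and_not_dvd (n := A) (by omega) p hp.ne_one
      have hα : 1 ≤ α := by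
        rcases Nat.eq_zero_or_pos α with h | h
        · exfalso
          rw [h, pow_zero, one_mul] at hAm
          exact hm (hAm ▸ hpA)
        · exact h
      have hd1 : p ^ α ∣ A := ⟨m, hAm⟩
      have hd2 : ¬ p ^ (α + 1) ∣ A := by
        rintro ⟨c, hc⟩
        rw [hAm, pow_succ, mul_assoc] at hc
        exact hm ⟨c, Nat.eq_of_mul_eq_mul_left (pow_pos hp.pos α) hc⟩
      have hAna : ‖(A : K)‖ = ((p : ℝ)⁻¹) ^ α := by
        rw [hAm]
        push_cast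
        rw [norm_mul, norm_pow, norm_p hp hE, norm_nat_one hp hE hm, mul_one]
      have heA : 0 < e * A := Nat.mul_pos (by omega) hA
      have hΘp : (p : ℝ)⁻¹ ≤ ‖Θ‖ := by
        by_contra h
        have h1 : ‖Θ‖ ^ (e * A) < ((p : ℝ)⁻¹) ^ (e * A) :=
          pow_lt_pow_left₀ (not_le.1 h) (norm_nonneg _) heA.ne'
        rw [hΘn] at h1
        have h2 : ((p : ℝ)⁻¹) ^ (e * A) ≤ ((p : ℝ)⁻¹) ^ (e * A - e' * B) :=
          pow_le_pow_of_le_one hi0.le hi1.le (Nat.sub_le _ _)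
        exact absurd h1 (not_lt.2 h2)
      have hlt : ‖(A : K) * Log (1 + y) - B * Θ‖ < ‖(B : K) * Θ‖ := by
        refine lt_of_le_of_lt hL1 ?_
        rw [norm_mul, hBn1, one_mul]
        refine lt_of_lt_of_le ?_ hΘp
        rw [hAna]
        calc ρ * ((p : ℝ)⁻¹) ^ α ≤ ρ * (p : ℝ)⁻¹ := by
              refine mul_le_mul_of_nonneg_left ?_ hρ0
              calc ((p : ℝ)⁻¹) ^ α ≤ ((p : ℝ)⁻¹) ^ 1 := pow_le_pow_of_le_one hi0.le hi1.le hα
                _ = _ := pow_one _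
          _ < 1 * (p : ℝ)⁻¹ := mul_lt_mul_of_pos_right hρlt1 hi0
          _ = _ := one_mul _
      have heq : ‖(A : K) * Log (1 + y)‖ = ‖Θ‖ := by
        have h1 : (A : K) * Log (1 + y) = ((A : K) * Log (1 + y) - B * Θ) + B * Θ := by ring
        rw [h1, IsUltrametricDist.norm_add_eq_max_of_norm_ne_norm hlt.ne, max_eq_right hlt.le,
          norm_mul, hBn1, one_mul]
      rw [norm_mul, hAna, hj3] at heq
      -- the power `e A`
      have hpow : (((p : ℝ)⁻¹) ^ α * ((p : ℝ) ^ j * ‖y‖ ^ (p ^ j))) ^ (e * A) =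
          ((p : ℝ)⁻¹) ^ (e * A - e' * B) := by
        rw [heq, hΘn]
      have h1 : (((p : ℝ)⁻¹) ^ α * ((p : ℝ) ^ j * ‖y‖ ^ (p ^ j))) ^ (e * A) =
          ((p : ℝ)⁻¹) ^ (α * (e * A) + (B - A) * (e * p ^ j)) * (p : ℝ) ^ (j * (e * A)) := by
        have h2 : (‖y‖ ^ (p ^ j)) ^ (e * A) = ((p : ℝ)⁻¹) ^ ((B - A) * (e * p ^ j)) := by
          calc (‖y‖ ^ (p ^ j)) ^ (e * A) = (‖y‖ ^ A) ^ (e * p ^ j) := by
                rw [← pow_mul, ← pow_mul]
                congr 1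
                ring
            _ = _ := by rw [hyA, ← pow_mul]
        rw [mul_pow, mul_pow, h2, ← pow_mul, ← pow_mul, pow_add]
        ring
      rw [h1] at hpow
      have h3 : j * (e * A) + (e * A - e' * B) = α * (e * A) + (B - A) * (e * p ^ j) := by
        apply hinj'
        generalize α * (e * A) + (B - A) * (e * p ^ j) = X at hpow ⊢
        generalize e * A - e' * B = Y at hpow ⊢
        generalize j * (e * A) = Z at hpow ⊢
        rw [inv_pow, inv_pow] at hpow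
        rw [pow_add]
        have hX : (p : ℝ) ^ X ≠ 0 := pow_ne_zero _ hp0.ne'
        have hY : (p : ℝ) ^ Y ≠ 0 := pow_ne_zero _ hp0.ne'
        field_simp at hpow
        linarith
      have h4 : e * p ^ j * (B - A) + e' * B + (α - 1) * e * A = j * e * A := by
        obtain ⟨α', rfl⟩ : ∃ α', α = α' + 1 := ⟨α - 1, by omega⟩
        have h5 : (α' + 1) * (e * A) = α' * (e * A) + e * A := by ring
        have h6 : e * p ^ j * (B - A) = (B - A) * (e * p ^ j) := by ring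
        have h7 : (α' + 1 - 1) * e * A = α' * (e * A) := by
          rw [Nat.add_sub_cancel, mul_assoc]
        have h8 : j * e * A = j * (e * A) := by ring
        rw [h6, h7, h8]
        rw [h5] at h3
        omega
      obtain ⟨r1, r2, r3⟩ := hR p hp (by omega) A B e e' j α hA hAB hco hα hd1 hd2 hee hep h4
      exact ⟨r1, α, hα, r2, r3⟩
    · exfalso
      have h1 : ‖(A : K)‖ = 1 := norm_nat_one hp hE hpA
      rw [norm_mul, h1, one_mul] at hAL1
      exact absurd (hy2.trans (hj4.trans hAL1)) (not_le.2 hρt)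

end Pool.Agent.ZPK.H72
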