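import Pool.Agent.ZPK.StmtsD

/-!
Squad ZPK (MP_6e1a06_nt), row NSP: the primes which do not split completely have a divergent sum of
reciprocals.
-/

set_option autoImplicit false

namespace Pool.Agent.ZPK.H72

open Filter Topology NumberField
open Pool.Agent.ZPK

/-- The bound of the zeta function near `1`. -/
theorem zeta_bound (F : Type) [Field F] [NumberField F] :
    ∃ (C₁ s₁ : ℝ), 1 ≤ C₁ ∧ 1 < s₁ ∧ ∀ s : ℝ, 1 < s → s < s₁ →
      (dedekindZeta F (s : ℂ)).re ≤ C₁ / (s - 1) := by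
  have h1 := NumberField.tendsto_sub_one_mul_dedekindZeta_nhdsGT F
  have h2 : Tendsto (fun s : ℝ => (s - 1) * (dedekindZeta F (s : ℂ)).re) (𝓝[>] 1)
      (𝓝 (dedekindZeta_residue F)) := by
    have h3 := (Complex.continuous_re.tendsto _).comp h1
    rw [Complex.ofReal_re] at h3
    refine h3.congr fun s => ?_
    show (((s : ℂ) - 1) * dedekindZeta F (s : ℂ)).re = _
    rw [show ((s : ℂ) - 1) = ((s - 1 : ℝ) : ℂ) by push_cast; ring, Complex.re_ofReal_mul]
  have h3 : ∀ᶠ s : ℝ in 𝓝[>] (1 : ℝ), (s - 1) * (dedekindZeta F (s : ℂ)).re <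
      dedekindZeta_residue F + 1 := h2.eventually_lt_const (by linarith)
  rw [eventually_nhdsWithin_iff, Metric.eventually_nhds_iff] at h3
  obtain ⟨ε, hε, h4⟩ := h3
  refine ⟨dedekindZeta_residue F + 1, 1 + ε, ?_, by linarith, ?_⟩
  · have := dedekindZeta_residue_pos F
    linarith
  · intro s hs hs1
    have h5 := h4 (y := s) (by rw [Real.dist_eq, abs_of_pos (by linarith)]; linarith) hs
    rw [le_div_iff₀ (by linarith), mul_comm]
    exact h5.le

theorem rpow_lt {p : ℕ} (hp : p.Prime) {s : ℝ} (hs : 1 < s) : (p : ℝ) ^ (-s) < 1 :=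
  Real.rpow_lt_one_of_one_lt_of_neg (by exact_mod_cast hp.one_lt) (by linarith)

theorem rpow_pos' {p : ℕ} (hp : p.Prime) (s : ℝ) : 0 < (p : ℝ) ^ (-s) :=
  Real.rpow_pos_of_pos (by exact_mod_cast hp.pos) _

/-- The estimate from a finite set of split primes. -/
theorem split_bound (hZ : ZlbStmt) (F : Type) [Field F] [NumberField F] {s : ℝ} (hs : 1 < s)
    (U : Finset Nat.Primes)
    (hU : ∀ p ∈ U, ∃ T : Finset (Ideal (NumberField.RingOfIntegers F)),
      T.card = Module.finrank ℚ F ∧ ∀ P ∈ T, P.IsPrime ∧ Ideal.absNorm P = (p : ℕ)) :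
    0 < (dedekindZeta F (s : ℂ)).re ∧
      (Module.finrank ℚ F : ℝ) * ∑ p ∈ U, ((p : ℕ) : ℝ) ^ (-s) ≤
        Real.log (dedekindZeta F (s : ℂ)).re := by
  classical
  have hch : ∀ p : Nat.Primes, ∃ T : Finset (Ideal (NumberField.RingOfIntegers F)), p ∈ U →
      T.card = Module.finrank ℚ F ∧ ∀ P ∈ T, P.IsPrime ∧ Ideal.absNorm P = (p : ℕ) := by
    intro p
    by_cases h : p ∈ U
    · obtain ⟨T, hT⟩ := hU p h
      exact ⟨T, fun _ => hT⟩
    · exact ⟨∅, fun h' => absurd h' h⟩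
  choose T hT using hch
  have h1 := hZ F s hs (U.biUnion T) (by
    intro P hP
    obtain ⟨p, hp, hPp⟩ := Finset.mem_biUnion.1 hP
    obtain ⟨h2, h3⟩ := (hT p hp).2 P hPp
    refine ⟨h2, ?_⟩
    rintro rfl
    rw [Ideal.absNorm_bot] at h3
    exact p.2.ne_zero h3.symm)
  rw [Finset.prod_biUnion (by
    intro p hp q hq hpq
    rw [Function.onFun, Finset.disjoint_left]
    intro P hP hQ
    apply hpq
    have e1 := ((hT p hp).2 P hP).2
    have e2 := ((hT q hq).2 P hQ).2
    exact Subtype.ext (e1.symm.trans e2))] at h1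
  have h2 : ∀ p ∈ U, ∏ P ∈ T p, (1 - ((Ideal.absNorm P : ℕ) : ℝ) ^ (-s))⁻¹ =
      ((1 - ((p : ℕ) : ℝ) ^ (-s))⁻¹) ^ (Module.finrank ℚ F) := by
    intro p hp
    rw [← (hT p hp).1]
    apply Finset.prod_eq_pow_card
    intro P hP
    rw [((hT p hp).2 P hP).2]
  rw [Finset.prod_congr rfl h2] at h1
  have hpos : ∀ p : Nat.Primes, 0 < (1 - ((p : ℕ) : ℝ) ^ (-s))⁻¹ := fun p =>
    inv_pos.2 (by have := rpow_lt p.2 hs; linarith)
  have h3 : 0 < ∏ p ∈ U, ((1 - ((p : ℕ) : ℝ) ^ (-s))⁻¹) ^ (Module.finrank ℚ F) :=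
    Finset.prod_pos fun p _ => pow_pos (hpos p) _
  refine ⟨h3.trans_le h1, ?_⟩
  have h4 := Real.log_le_log h3 h1
  rw [Real.log_prod fun p _ => (pow_pos (hpos p) _).ne'] at h4
  refine le_trans ?_ h4
  rw [Finset.mul_sum]
  refine Finset.sum_le_sum fun p _ => ?_
  rw [Real.log_pow]
  refine mul_le_mul_of_nonneg_left ?_ (Nat.cast_nonneg _)
  rw [Real.log_inv]
  have h5 := Real.log_le_sub_one_of_pos (x := 1 - ((p : ℕ) : ℝ) ^ (-s))
    (by have := rpow_lt p.2 hs; linarith)
  linarith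

/-- The primes in `S` as primes. -/
def toP (S : Set ℕ) : {p : ℕ // p.Prime ∧ p ∈ S} → Nat.Primes := fun p => ⟨(p : ℕ), p.2.1⟩

theorem toP_inj (S : Set ℕ) : Function.Injective (toP S) := by
  intro p q h
  exact Subtype.ext (congrArg (fun r : Nat.Primes => (r : ℕ)) h)

/-- Row NSP. -/
theorem nsp (hZ : ZlbStmt) (hR : ZrsStmt) : NspStmt := by
  classical
  intro F _ _ hd S p₀ hsplit hS
  obtain ⟨C, s₀, hs₀, hC⟩ := hR
  obtain ⟨C₁, s₁, hC₁, hs₁, hζ⟩ := zeta_bound F
  -- the sum over `S` as a sum over all primes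
  obtain ⟨g, hg⟩ : ∃ g : Nat.Primes → ℝ, g = fun p : Nat.Primes => if (p : ℕ) ∈ S then ((p : ℕ) : ℝ)⁻¹ else 0 :=
    ⟨_, rfl⟩
  have hg0 : ∀ p, 0 ≤ g p := by
    intro p
    rw [hg]
    dsimp only
    split_ifs
    · positivity
    · exact le_rfl
  have hgs : Summable g := by
    rw [← (toP_inj S).summable_iff]
    · refine hS.congr ?_
      intro p
      rw [hg]
      show ((p : ℕ) : ℝ)⁻¹ = if (p : ℕ) ∈ S then ((p : ℕ) : ℝ)⁻¹ else 0
      rw [if_pos p.2.2]
    · intro p hp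
      rw [hg]
      dsimp only
      rw [if_neg]
      intro h
      exact hp ⟨⟨(p : ℕ), p.2, h⟩, rfl⟩
  obtain ⟨σ, hσ⟩ : ∃ σ : ℝ, σ = ∑' p, g p := ⟨_, rfl⟩
  have hσ0 : 0 ≤ σ := by
    rw [hσ]
    exact tsum_nonneg hg0
  have hd0 : (2 : ℝ) ≤ (Module.finrank ℚ F : ℝ) := by exact_mod_cast hd
  -- the main estimate
  have key : ∀ s : ℝ, 1 < s → s < s₀ → s < s₁ → s < 2 →
      Real.log (1 / (s - 1)) ≤ 2 * (C + Real.log C₁ + σ + p₀) := by
    intro s h1 h2 h3 h4
    obtain ⟨hsum, hlow⟩ := hC s h1 h2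
    have hlog0 : 0 ≤ Real.log (1 / (s - 1)) := by
      apply Real.log_nonneg
      rw [le_div_iff₀ (by linarith)]
      linarith
    have hlogC : 0 ≤ Real.log C₁ := Real.log_nonneg hC₁
    have hub : ∀ U : Finset Nat.Primes, ∑ p ∈ U, ((p : ℕ) : ℝ) ^ (-s) ≤
        (Real.log (1 / (s - 1)) + Real.log C₁) / 2 + σ + p₀ := by
      intro U
      have e1 : ∀ p ∈ U, ((p : ℕ) : ℝ) ^ (-s) ≤ g p + (if (p : ℕ) < p₀ then 1 else 0) +
          (if (p : ℕ) ∉ S ∧ p₀ ≤ (p : ℕ) then ((p : ℕ) : ℝ) ^ (-s) else 0) := by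
        intro p _
        have f1 := rpow_lt p.2 h1
        have f0 := rpow_pos' p.2 s
        by_cases c1 : (p : ℕ) ∈ S
        · have f2 : ((p : ℕ) : ℝ) ^ (-s) ≤ ((p : ℕ) : ℝ)⁻¹ := by
            rw [← Real.rpow_neg_one]
            exact Real.rpow_le_rpow_of_exponent_le (by exact_mod_cast p.2.one_lt.le) (by linarith)
          have f3 : g p = ((p : ℕ) : ℝ)⁻¹ := by rw [hg]; exact if_pos c1
          rw [f3]
          split_ifs with c3 c4 c4
          · exact absurd c1 c4.1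
          · linarith
          · exact absurd c1 c4.1
          · linarith
        · by_cases c2 : (p : ℕ) < p₀
          · rw [if_pos c2, if_neg (by omega)]
            have := hg0 p
            linarith
          · rw [if_neg c2, if_pos ⟨c1, by omega⟩]
            have := hg0 p
            linarith
      have e2 := Finset.sum_le_sum e1
      rw [Finset.sum_add_distrib, Finset.sum_add_distrib] at e2
      have e3 : ∑ p ∈ U, g p ≤ σ := by
        rw [hσ]
        exact hgs.sum_le_tsum _ fun p _ => hg0 p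
      have e4 : ∑ p ∈ U, (if (p : ℕ) < p₀ then (1 : ℝ) else 0) ≤ p₀ := by
        rw [← Finset.sum_filter, Finset.sum_const, nsmul_eq_mul, mul_one]
        have f1 : (U.filter fun p : Nat.Primes => (p : ℕ) < p₀).card ≤ p₀ := by
          have f2 : ((U.filter fun p : Nat.Primes => (p : ℕ) < p₀).image fun p : Nat.Primes => (p : ℕ)) ⊆
              Finset.range p₀ := by
            intro n hn
            obtain ⟨p, hp, rfl⟩ := Finset.mem_image.1 hn
            exact Finset.mem_range.2 (Finset.mem_filter.1 hp).2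
          have f3 := Finset.card_le_card f2
          rw [Finset.card_range, Finset.card_image_of_injective (f := fun p : Nat.Primes => (p : ℕ)) _
            (fun p q h => Subtype.ext h)] at f3
          exact f3
        exact_mod_cast f1
      have e5 : ∑ p ∈ U, (if (p : ℕ) ∉ S ∧ p₀ ≤ (p : ℕ) then ((p : ℕ) : ℝ) ^ (-s) else 0) ≤
          (Real.log (1 / (s - 1)) + Real.log C₁) / 2 := by
        rw [← Finset.sum_filter]
        obtain ⟨g1, g2⟩ := split_bound hZ F h1 (U.filter fun p : Nat.Primes => (p : ℕ) ∉ S ∧ p₀ ≤ (p : ℕ))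
          (by
            intro p hp
            have h5 := (Finset.mem_filter.1 hp).2
            exact hsplit p p.2 h5.2 h5.1)
        have g3 : Real.log (dedekindZeta F (s : ℂ)).re ≤
            Real.log (1 / (s - 1)) + Real.log C₁ := by
          rw [← Real.log_mul (by
            have : 0 < 1 / (s - 1) := div_pos one_pos (by linarith)
            exact this.ne') (by linarith)]
          apply Real.log_le_log g1
          have := hζ s h1 h3
          rw [show 1 / (s - 1) * C₁ = C₁ / (s - 1) by ring]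
          exact this
        have g4 : 0 ≤ ∑ p ∈ U.filter (fun p : Nat.Primes => (p : ℕ) ∉ S ∧ p₀ ≤ (p : ℕ)),
            ((p : ℕ) : ℝ) ^ (-s) := Finset.sum_nonneg fun p _ => (rpow_pos' p.2 s).le
        have g5 := mul_le_mul_of_nonneg_right hd0 g4
        linarith
      linarith
    have hts : ∑' p : Nat.Primes, ((p : ℕ) : ℝ) ^ (-s) ≤
        (Real.log (1 / (s - 1)) + Real.log C₁) / 2 + σ + p₀ := hsum.tsum_le_of_sum_le hub
    linarith
  -- the contradiction
  obtain ⟨M, hM⟩ : ∃ M : ℝ, M = 2 * (C + Real.log C₁ + σ + p₀) := ⟨_, rfl⟩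
  obtain ⟨ε, hε⟩ : ∃ ε : ℝ, ε = min (min ((s₀ - 1) / 2) ((s₁ - 1) / 2))
      (min (1 / 2) (Real.exp (-M - 1))) := ⟨_, rfl⟩
  have hε0 : 0 < ε := by
    rw [hε]
    exact lt_min (lt_min (by linarith) (by linarith)) (lt_min (by norm_num) (Real.exp_pos _))
  have hε1 : ε ≤ (s₀ - 1) / 2 := by
    rw [hε]; exact (min_le_left _ _).trans (min_le_left _ _)
  have hε2 : ε ≤ (s₁ - 1) / 2 := by
    rw [hε]; exact (min_le_left _ _).trans (min_le_right _ _)
  have hε3 : ε ≤ 1 / 2 := by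
    rw [hε]; exact (min_le_right _ _).trans (min_le_left _ _)
  have hε4 : ε ≤ Real.exp (-M - 1) := by
    rw [hε]; exact (min_le_right _ _).trans (min_le_right _ _)
  have h1 := key (1 + ε) (by linarith) (by linarith) (by linarith) (by linarith)
  rw [← hM, show 1 + ε - 1 = ε by ring, one_div, Real.log_inv] at h1
  have h2 := Real.log_le_log hε0 hε4
  rw [Real.log_exp] at h2
  linarith

end Pool.Agent.ZPK.H72
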