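import Pool.Agent.ZPK.StmtsT

set_option autoImplicit false

/-!
Helper72, squad ZPK (MP_6e1a06_nt), row PBS: a pair of small coordinates away from the critical
radius.
-/

namespace Pool.Agent.ZPK.H72.PB

open Pool.Agent.ZPT Pool.Agent.ZP3

theorem norm_ro {K : Type} [NormedField K] {ζ : K} (h : Ro ζ) : ‖ζ‖ = 1 := by
  obtain ⟨M, hM, h1⟩ := h
  have h2 : ‖ζ‖ ^ M = 1 := by rw [← norm_pow, h1, norm_one]
  exact (pow_eq_one_iff_of_nonneg (norm_nonneg ζ) (by omega)).1 h2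

theorem norm_lS {K : Type} [NormedField K] {L : Subfield K} {e e' : ℕ} {A : ℕ → K} {g : K}
    (h : Cd L e' A g) : ‖lS e e' A g‖ ≤ 1 := by
  unfold lS
  split_ifs
  · rw [norm_div, h.g1, div_one]
    exact h.An1 0
  · rw [norm_zero]
    exact zero_le_one

end Pool.Agent.ZPK.H72.PB

namespace Pool.Agent.ZPK.H72

open Pool.Agent.ZPT Pool.Agent.ZP3 PB

/-- Row PBS. -/
theorem pbs (hT : ZP3.THBStmt) (hR : RsmStmt) (hS : TpsStmt) (hF : FinStmt) : PbsStmt := by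
  intro U hU p hp h5 K _ _ _ _ hE L e e₁ e₂ A₁ A₂ g₁ g₂ hC₁ hC₂ he
  obtain ⟨_, ht0, ht1, htp, _⟩ := hT p hp h5
  have hp0 : (0 : ℝ) < (p : ℝ) := by exact_mod_cast hp.pos
  have hp1 : (1 : ℝ) < (p : ℝ) := by exact_mod_cast hp.one_lt
  have hi0 : (0 : ℝ) < (p : ℝ)⁻¹ := inv_pos.2 hp0
  have hi1 : (p : ℝ)⁻¹ < 1 := inv_lt_one_of_one_lt₀ hp1
  have hith : (p : ℝ)⁻¹ ≤ th p := htp.le.trans (by
    calc th p ^ 3 ≤ th p ^ 1 := pow_le_pow_of_le_one ht0.le ht1.le (by norm_num)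
      _ = _ := pow_one _)
  obtain ⟨M, hM, hMz⟩ := hF p hp (by omega) K hE {g₁ / g₂} (th p) ht1
  refine ⟨M, fun t q₁ q₂ ht htlt hSm hw hA₁ hA₂ hD => ?_⟩
  have hg2 : ‖g₁ / g₂‖ = 1 := by rw [norm_div, hC₁.g1, hC₂.g1, div_one]
  rcases Nat.eq_zero_or_pos e with he0 | he0
  · -- `e = 0`
    have h1 : e₁ = 0 := by omega
    have h2 : e₂ = 0 := by omega
    subst h1 h2
    have hpn : ‖(p : K)‖ = (p : ℝ)⁻¹ := by
      have := Fact.mk hp
      have h := hE (p : ℚ)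
      have h2 : (((p : ℚ) : ℚ) : K) = (p : K) := by push_cast; rfl
      rw [h2] at h
      rw [h, padicNorm.padicNorm_p_of_prime]
      push_cast
      rfl
    have key : ∀ (A : ℕ → K) (g q : K), Cd L 0 A g → At p U 0 A g t q →
        ‖q‖ = (p : ℝ)⁻¹ ∧ ‖(p : K) * q⁻¹ - g‖ ≤ (p : ℝ)⁻¹ := by
      intro A g q hC hA
      obtain ⟨h3, h4, _⟩ := hR U hU p hp h5 K hE L 0 A g hC t q ht htlt
        (by unfold Sm; rw [pow_zero]; exact hi1) hA
      refine ⟨h3, ?_⟩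
      rw [pow_zero, div_one, hpn] at h4
      have h5 : (p : K) * q⁻¹ - g = ((p : K) * q⁻¹ - (g + A 0 * p)) + A 0 * p := by ring
      rw [h5]
      refine (IsUltrametricDist.norm_add_le_max _ _).trans (max_le (h4.trans ?_) ?_)
      · exact max_le le_rfl (mul_le_of_le_one_right hi0.le htlt.le)
      · rw [norm_mul, hpn]
        exact mul_le_of_le_one_left hi0.le (hC.An1 0)
    obtain ⟨hq1, hx1⟩ := key A₁ g₁ q₁ hC₁ hA₁
    obtain ⟨hq2, hx2⟩ := key A₂ g₂ q₂ hC₂ hA₂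
    have hq1n : q₁ ≠ 0 := norm_pos_iff.1 (by rw [hq1]; exact hi0)
    have hq2n : q₂ ≠ 0 := norm_pos_iff.1 (by rw [hq2]; exact hi0)
    have hpne : (p : K) ≠ 0 := norm_pos_iff.1 (by rw [hpn]; exact hi0)
    have hg1n : g₁ ≠ 0 := norm_pos_iff.1 (by rw [hC₁.g1]; exact one_pos)
    have hg2n : g₂ ≠ 0 := norm_pos_iff.1 (by rw [hC₂.g1]; exact one_pos)
    obtain ⟨a, b, ha, hb, hab⟩ := hD
    have hab' : a = b := by
      have h3 : ((p : ℝ)⁻¹) ^ a = ((p : ℝ)⁻¹) ^ b := by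
        rw [← hq1, ← norm_pow, hab, norm_pow, hq2, hq1]
      exact pow_right_injective₀ hi0 hi1.ne h3
    have hRo : Ro (q₂ / q₁) := by
      refine ⟨a, ha, ?_⟩
      rw [div_pow, hab, hab']
      exact div_self (pow_ne_zero _ hq2n)
    have hx2n : ‖(p : K) * q₂⁻¹‖ = 1 := by
      rw [norm_mul, norm_inv, hpn, hq2, inv_inv]
      exact inv_mul_cancel₀ hp0.ne'
    have hclose : ‖q₂ / q₁ - g₁ / g₂‖ ≤ th p := by
      have h3 : q₂ / q₁ - g₁ / g₂ = (((p : K) * q₁⁻¹ - g₁) * g₂ +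
          -(g₁ * ((p : K) * q₂⁻¹ - g₂))) / (((p : K) * q₂⁻¹) * g₂) := by
        field_simp
        ring
      rw [h3, norm_div, norm_mul, hx2n, hC₂.g1, one_mul, div_one]
      refine ((IsUltrametricDist.norm_add_le_max _ _).trans (max_le ?_ ?_)).trans hith
      · rw [norm_mul, hC₂.g1, mul_one]
        exact hx1
      · rw [norm_neg, norm_mul, hC₁.g1, one_mul]
        exact hx2
    have h4 := hMz (q₂ / q₁) hRo ⟨_, Finset.mem_singleton_self _, hclose⟩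
    refine ⟨M, M, hM, le_rfl, hM, le_rfl, ?_⟩
    rw [div_pow, div_eq_one_iff_eq (pow_ne_zero _ hq1n)] at h4
    exact h4.symm
  · -- `e ≥ 1`
    obtain ⟨ζ, hRo, h1, h2⟩ := hS U hU p hp h5 K hE L e e₁ e₂ A₁ A₂ g₁ g₂ hC₁ hC₂ he he0 t q₁ q₂
      ht htlt hSm hA₁ hA₂ hD
    have hζ := norm_ro hRo
    have hclose : ‖ζ - g₁ / g₂‖ ≤ th p := by
      have h3 : ζ - g₁ / g₂ = (-(g₁ / g₂ * (1 + lS e e₁ A₁ g₁ * ((p : K) / t ^ e)) -
          ζ * (1 + lS e e₂ A₂ g₂ * (p / t ^ e))) + g₁ / g₂ * (lS e e₁ A₁ g₁ * (p / t ^ e))) +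
          -(ζ * (lS e e₂ A₂ g₂ * (p / t ^ e))) := by ring
      rw [h3]
      have hl1 := norm_lS (e := e) hC₁
      have hl2 := norm_lS (e := e) hC₂
      refine ((IsUltrametricDist.norm_add_le_max _ _).trans (max_le
        ((IsUltrametricDist.norm_add_le_max _ _).trans (max_le ?_ ?_)) ?_)).trans hw.le
      · rw [norm_neg]
        exact h1.trans (mul_le_of_le_one_left (norm_nonneg _) htlt.le)
      · rw [norm_mul, hg2, one_mul, norm_mul]
        exact mul_le_of_le_one_left (norm_nonneg _) hl1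
      · rw [norm_neg, norm_mul, hζ, one_mul, norm_mul]
        exact mul_le_of_le_one_left (norm_nonneg _) hl2
    have h4 := hMz ζ hRo ⟨_, Finset.mem_singleton_self _, hclose⟩
    exact ⟨M, M, hM, le_rfl, hM, le_rfl, h2 M hM h4⟩

end Pool.Agent.ZPK.H72
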