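import Pool.Agent.ZPK.StmtsR2

set_option autoImplicit false

/-!
Helper72, squad ZPK (MP_6e1a06_nt), row PLG: the principal root as a polynomial in `t`.
-/

namespace Pool.Agent.ZPK.H72.PL

open Pool.Agent.ZPT Pool.Agent.ZP3 Polynomial

theorem norm_pow_sub_pow_le {K : Type} [NormedField K] [IsUltrametricDist K] {u v : K}
    (hu : ‖u‖ ≤ 1) (hv : ‖v‖ ≤ 1) (i : ℕ) : ‖u ^ i - v ^ i‖ ≤ ‖u - v‖ := by
  rw [← geom_sum₂_mul, norm_mul]
  refine mul_le_of_le_one_left (norm_nonneg _) ?_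
  refine IsUltrametricDist.norm_sum_le_of_forall_le_of_nonneg zero_le_one fun j _ => ?_
  rw [norm_mul, norm_pow, norm_pow]
  exact mul_le_one₀ (pow_le_one₀ (norm_nonneg _) hu) (pow_nonneg (norm_nonneg _) _)
    (pow_le_one₀ (norm_nonneg _) hv)

theorem rh_facts {p E : ℕ} (hp : p.Prime) (hE : 1 ≤ E) :
    0 < rh p E ∧ rh p E < 1 ∧ rh p E ^ (2 * E) = (p : ℝ)⁻¹ := by
  have hp0 : (0 : ℝ) < (p : ℝ) := by exact_mod_cast hp.pos
  have hp1 : (1 : ℝ) < (p : ℝ) := by exact_mod_cast hp.one_lt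
  have hE0 : (0 : ℝ) < (E : ℝ) := by exact_mod_cast hE
  refine ⟨Real.rpow_pos_of_pos hp0 _, ?_, ?_⟩
  · refine Real.rpow_lt_one_of_one_lt_of_neg hp1 ?_
    exact div_neg_of_neg_of_pos (by norm_num) (by positivity)
  · unfold rh
    rw [← Real.rpow_natCast, ← Real.rpow_mul hp0.le]
    have h1 : -(1 : ℝ) / (2 * (E : ℝ)) * ((2 * E : ℕ) : ℝ) = -1 := by
      push_cast
      field_simp
    rw [h1, Real.rpow_neg_one]

end Pool.Agent.ZPK.H72.PL

namespace Pool.Agent.ZPK.H72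

open Pool.Agent.ZPT Pool.Agent.ZP3 Polynomial PL

/-- Row PLG. -/
theorem plg (_hN : NumStmt) (hP : PrtStmt) : PlgStmt := by
  intro p E hp hE1 hEp K _ _ _ hE L e m t F G c he1 heE hc ht hF hFc hG hGF
  obtain ⟨hr0, hr1, hr2⟩ := rh_facts hp hE1
  have hp0 : (0 : ℝ) < (p : ℝ) := by exact_mod_cast hp.pos
  have hp1 : (1 : ℝ) < (p : ℝ) := by exact_mod_cast hp.one_lt
  have hi0 : (0 : ℝ) < (p : ℝ)⁻¹ := inv_pos.2 hp0
  have hi1 : (p : ℝ)⁻¹ < 1 := inv_lt_one_of_one_lt₀ hp1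
  have hep : e < p := by nlinarith
  obtain ⟨b, hb, hbG⟩ := hP p hp K hE m e (2 * E + 2) he1 hep
  have hbn : ∀ i, ‖((b i : ℚ) : K)‖ ≤ 1 := fun i => by
    rw [hE]
    exact_mod_cast hb i
  have hGb := hbG (F - 1) G (lt_of_le_of_lt hF hr1) hG (by rw [add_sub_cancel]; exact hGF)
  -- the polynomials
  let P₀ : L[X] := (∑ n ∈ Finset.range (E + 1), C (⟨c n, hc n⟩ : L) * X ^ n) - 1
  let Q : L[X] := ∑ i ∈ Finset.range (2 * E + 2), C ((b i : ℚ) : L) * P₀ ^ i
  have hP₀d : P₀.natDegree ≤ E := by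
    refine (natDegree_sub_le _ _).trans (max_le ?_ (by rw [natDegree_one]; exact Nat.zero_le _))
    refine natDegree_sum_le_of_forall_le _ _ fun n hn => ?_
    have := Finset.mem_range.1 hn
    exact (natDegree_C_mul_X_pow_le _ _).trans (by omega)
  have hQd : Q.natDegree ≤ E * (2 * E + 1) := by
    refine natDegree_sum_le_of_forall_le _ _ fun i hi => ?_
    have hi' := Finset.mem_range.1 hi
    refine (natDegree_C_mul_le _ _).trans ((natDegree_pow_le).trans ?_)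
    calc i * P₀.natDegree ≤ (2 * E + 1) * E := Nat.mul_le_mul (by omega) hP₀d
      _ = _ := mul_comm _ _
  have hP₀e : eval₂ L.subtype t P₀ = (∑ n ∈ Finset.range (E + 1), c n * t ^ n) - 1 := by
    simp only [P₀, eval₂_sub, eval₂_one, eval₂_finsetSum, eval₂_mul, eval₂_C, eval₂_pow, eval₂_X]
    rfl
  have hQe : eval₂ L.subtype t Q = ∑ i ∈ Finset.range (2 * E + 2), ((b i : ℚ) : K) *
      ((∑ n ∈ Finset.range (E + 1), c n * t ^ n) - 1) ^ i := by
    have h1 : eval₂ L.subtype t Q = ∑ i ∈ Finset.range (2 * E + 2),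
        L.subtype ((b i : ℚ) : L) * (eval₂ L.subtype t P₀) ^ i := by
      simp only [Q, eval₂_finsetSum, eval₂_mul, eval₂_C, eval₂_pow]
    rw [h1, hP₀e]
    refine Finset.sum_congr rfl fun i _ => ?_
    rw [map_ratCast]
  refine ⟨fun n => L.subtype (Q.coeff n), fun n => (Q.coeff n).2, ?_⟩
  have hsum : ∑ n ∈ Finset.range (E * (2 * E + 1) + 1), L.subtype (Q.coeff n) * t ^ n =
      eval₂ L.subtype t Q := by
    rw [eval₂_eq_sum_range' L.subtype (Nat.lt_succ_of_le hQd)]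
  rw [hsum, hQe]
  set S := ∑ n ∈ Finset.range (E + 1), c n * t ^ n with hS
  have huv : ‖(F - 1) - (S - 1)‖ ≤ rh p E * (p : ℝ)⁻¹ := by
    have h1 : (F - 1) - (S - 1) = F - S := by ring
    rw [h1]
    exact hFc
  have hrp : rh p E * (p : ℝ)⁻¹ ≤ rh p E := mul_le_of_le_one_right hr0.le hi1.le
  have hS1 : ‖S - 1‖ ≤ rh p E := by
    have h1 : S - 1 = (F - 1) + -((F - 1) - (S - 1)) := by ring
    rw [h1]
    refine (IsUltrametricDist.norm_add_le_max _ _).trans (max_le hF ?_)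
    rw [norm_neg]
    exact huv.trans hrp
  have hdec : G - ∑ i ∈ Finset.range (2 * E + 2), ((b i : ℚ) : K) * (S - 1) ^ i =
      (G - ∑ i ∈ Finset.range (2 * E + 2), ((b i : ℚ) : K) * (F - 1) ^ i) +
      ∑ i ∈ Finset.range (2 * E + 2), ((b i : ℚ) : K) * ((F - 1) ^ i - (S - 1) ^ i) := by
    have h1 : ∑ i ∈ Finset.range (2 * E + 2), ((b i : ℚ) : K) * ((F - 1) ^ i - (S - 1) ^ i) =
        ∑ i ∈ Finset.range (2 * E + 2), ((b i : ℚ) : K) * (F - 1) ^ i -
        ∑ i ∈ Finset.range (2 * E + 2), ((b i : ℚ) : K) * (S - 1) ^ i := by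
      rw [← Finset.sum_sub_distrib]
      exact Finset.sum_congr rfl fun i _ => mul_sub _ _ _
    rw [h1]
    ring
  rw [hdec]
  refine (IsUltrametricDist.norm_add_le_max _ _).trans (max_le ?_ ?_)
  · refine hGb.trans ?_
    calc ‖F - 1‖ ^ (2 * E + 2) ≤ rh p E ^ (2 * E + 2) :=
          pow_le_pow_left₀ (norm_nonneg _) hF _
      _ = (p : ℝ)⁻¹ * rh p E ^ 2 := by rw [pow_add, hr2]
      _ ≤ (p : ℝ)⁻¹ * rh p E := by
          refine mul_le_mul_of_nonneg_left ?_ hi0.le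
          calc rh p E ^ 2 ≤ rh p E ^ 1 := pow_le_pow_of_le_one hr0.le hr1.le (by norm_num)
            _ = _ := pow_one _
      _ = _ := mul_comm _ _
  · refine IsUltrametricDist.norm_sum_le_of_forall_le_of_nonneg (mul_pos hr0 hi0).le
      fun i _ => ?_
    rw [norm_mul]
    refine (mul_le_of_le_one_left (norm_nonneg _) (hbn i)).trans ?_
    exact (norm_pow_sub_pow_le (hF.trans hr1.le) (hS1.trans hr1.le) i).trans huv

end Pool.Agent.ZPK.H72
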