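import Pool.Agent.ZPK.StmtsR

set_option autoImplicit false

/-!
Helper72, squad ZPK (MP_6e1a06_nt), row RLA: expansion of a large coordinate.
-/

namespace Pool.Agent.ZPK.H72

open Pool.Agent.ZPT Pool.Agent.ZP3

theorem norm_tsum_le_of {K : Type} [NormedField K] [IsUltrametricDist K] {f : ℕ → K} {C : ℝ}
    (hC : 0 ≤ C) (hf : Summable f) (h : ∀ n, ‖f n‖ ≤ C) : ‖∑' n, f n‖ ≤ C := by
  have h1 := (continuous_norm.tendsto (∑' n, f n)).comp hf.hasSum
  refine le_of_tendsto h1 (Filter.Eventually.of_forall fun s => ?_)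
  exact IsUltrametricDist.norm_sum_le_of_forall_le_of_nonneg hC (fun i _ => h i)

/-- the tail of the expansion -/
theorem tail_le {K : Type} [NormedField K] [IsUltrametricDist K] [CompleteSpace K]
    {A : ℕ → K} (hA : ∀ n, ‖A n‖ ≤ 1) {t : K} (ht : ‖t‖ < 1) (N : ℕ) :
    ‖(∑' n : ℕ, A n * t ^ n) - ∑ n ∈ Finset.range N, A n * t ^ n‖ ≤ ‖t‖ ^ N := by
  have hn : ∀ n, ‖A n * t ^ n‖ ≤ ‖t‖ ^ n := fun n => by
    rw [norm_mul, norm_pow]
    calc ‖A n‖ * ‖t‖ ^ n ≤ 1 * ‖t‖ ^ n :=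
          mul_le_mul_of_nonneg_right (hA n) (pow_nonneg (norm_nonneg t) n)
      _ = ‖t‖ ^ n := one_mul _
  have hs : Summable fun n => A n * t ^ n :=
    Summable.of_norm_bounded (summable_geometric_of_lt_one (norm_nonneg t) ht) hn
  have h1 := hs.sum_add_tsum_nat_add N
  have h2 : (∑' n : ℕ, A n * t ^ n) - ∑ n ∈ Finset.range N, A n * t ^ n =
      ∑' i, A (i + N) * t ^ (i + N) := by
    rw [← h1]
    ring
  rw [h2]
  refine norm_tsum_le_of (pow_nonneg (norm_nonneg t) N) ((summable_nat_add_iff N).2 hs)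
    fun n => (hn (n + N)).trans ?_
  exact pow_le_pow_of_le_one (norm_nonneg t) ht.le (Nat.le_add_left N n)

theorem norm_p {p : ℕ} (hp : p.Prime) {K : Type} [NormedField K] [CharZero K] (hE : Ext p K) :
    ‖(p : K)‖ = (p : ℝ)⁻¹ := by
  haveI := Fact.mk hp
  have h := hE (p : ℚ)
  have h2 : (((p : ℚ) : ℚ) : K) = (p : K) := by push_cast; rfl
  rw [h2] at h
  rw [h, padicNorm.padicNorm_p_of_prime]
  push_cast
  rfl

/-- Row RLA. -/
theorem rla (hT : ZP3.TATStmt) : RlaStmt := by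
  intro U hU p hp h5 K _ _ _ _ hE L e A g hcd he t q ht0 ht1 hLa hAt
  have hq0 := hAt.q0
  have hq1 := hAt.q1
  obtain ⟨hu, hT1⟩ := hT U hU p hp h5 K hE
  obtain ⟨hX, hq⟩ := hT1 q hq0 hq1
  have hp0 : (0 : ℝ) < (p : ℝ) := by exact_mod_cast hp.pos
  have hpn := norm_p hp hE
  have hpne : (p : K) ≠ 0 := by
    intro h
    rw [h, norm_zero] at hpn
    exact absurd hpn (by positivity)
  have hA0 : ‖A 0‖ = 1 := hcd.A0 he
  have hA0n : A 0 ≠ 0 := by
    intro h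
    rw [h, norm_zero] at hA0
    exact absurd hA0 (by norm_num)
  have htn : t ≠ 0 := norm_pos_iff.1 ht0
  have hten : t ^ e ≠ 0 := pow_ne_zero _ htn
  have hte0 : 0 < ‖t‖ ^ e := pow_pos ht0 e
  -- the norm of the sum
  have hS : ‖∑' n : ℕ, A n * t ^ n‖ = 1 := by
    have h1 := tail_le hcd.An1 ht1 1
    rw [Finset.sum_range_one, pow_zero, mul_one, pow_one] at h1
    have h2 : (∑' n : ℕ, A n * t ^ n) = A 0 + ((∑' n : ℕ, A n * t ^ n) - A 0) := by ring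
    have h3 : ‖(∑' n : ℕ, A n * t ^ n) - A 0‖ < ‖A 0‖ := by
      rw [hA0]
      exact lt_of_le_of_lt h1 ht1
    rw [h2, IsUltrametricDist.norm_add_eq_max_of_norm_ne_norm h3.ne', max_eq_left h3.le, hA0]
  -- the norm of X
  have hXn : ‖jv U q‖ = (‖t‖ ^ e)⁻¹ := by
    have h1 : ‖(∑' n : ℕ, A n * t ^ n) / t ^ e‖ = (‖t‖ ^ e)⁻¹ := by
      rw [norm_div, hS, norm_pow, one_div]
    have h2 : ‖g / (p : K)‖ = p := by
      rw [norm_div, hcd.g1, hpn, one_div, inv_inv]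
    have h3 : ‖g / (p : K)‖ < ‖(∑' n : ℕ, A n * t ^ n) / t ^ e‖ := by
      rw [h1, h2]
      have h4 := (inv_lt_inv₀ (inv_pos.2 hp0) hte0).2 hLa
      rwa [inv_inv] at h4
    rw [hAt.eq, IsUltrametricDist.norm_add_eq_max_of_norm_ne_norm h3.ne', max_eq_left h3.le, h1]
  have hqn : ‖q‖ = ‖t‖ ^ e := by
    rw [hXn] at hX
    exact (inv_injective hX).symm
  refine ⟨hqn, fun N _ => ?_⟩
  have hd : ‖q⁻¹ - jv U q‖ ≤ 1 := by
    have h1 : q⁻¹ - jv U q = (q⁻¹ - (jv U q - ((PowerSeries.coeff 1 U : ℚ) : K))) +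
        (-((PowerSeries.coeff 1 U : ℚ) : K)) := by ring
    rw [h1]
    refine (IsUltrametricDist.norm_add_le_max _ _).trans (max_le (hq.trans hq1.le) ?_)
    rw [norm_neg]
    exact hu
  have hdec : t ^ e * q⁻¹ / A 0 -
      (∑ n ∈ Finset.range N, A n / A 0 * t ^ n + g / A 0 * (t ^ e / p)) =
      ((∑' n : ℕ, A n * t ^ n) - ∑ n ∈ Finset.range N, A n * t ^ n) / A 0 +
        t ^ e / A 0 * (q⁻¹ - jv U q) := by
    have h1 : ∑ n ∈ Finset.range N, A n / A 0 * t ^ n =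
        (∑ n ∈ Finset.range N, A n * t ^ n) / A 0 := by
      rw [Finset.sum_div]
      exact Finset.sum_congr rfl fun n _ => by ring
    rw [h1, hAt.eq]
    field_simp
    ring
  rw [hdec]
  refine (IsUltrametricDist.norm_add_le_max _ _).trans (max_le_max ?_ ?_)
  · rw [norm_div, hA0, div_one]
    exact tail_le hcd.An1 ht1 N
  · rw [norm_mul, norm_div, hA0, div_one, norm_pow]
    calc ‖t‖ ^ e * ‖q⁻¹ - jv U q‖ ≤ ‖t‖ ^ e * 1 := mul_le_mul_of_nonneg_left hd hte0.le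
      _ = ‖t‖ ^ e := mul_one _

end Pool.Agent.ZPK.H72
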